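import Pool.Agent.H992.BE.Defs

open MeasureTheory Filter Topology
open scoped Uniformity

namespace Pool.Agent.H860.BE

open Pool.Agent.H992.BE

theorem ks : S_KS := by
  intro K
  apply ArzelaAscoli.isCompact_of_equicontinuous
  · -- the image is a closed subset of a product of compact intervals
    have himg : ContinuousMap.toFun '' (KS K) = {g : ℂ → ℝ | ∀ R : ℕ, ∀ x y : ℂ, ‖x‖ ≤ R → ‖y‖ ≤ R →
        |g x| ≤ K R ∧ |g x - g y| ≤ K R * ‖x - y‖} := by
      apply Set.Subset.antisymm
      · rintro _ ⟨f, hf, rfl⟩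
        exact hf
      · intro g hg
        have hcont : Continuous g := by
          rw [continuous_iff_continuousAt]
          intro x₀
          set R : ℕ := ⌈‖x₀‖⌉₊ + 1 with hR
          have h1 : ‖x₀‖ ≤ (⌈‖x₀‖⌉₊ : ℝ) := Nat.le_ceil _
          have hx₀ : ‖x₀‖ ≤ (R : ℝ) := by
            rw [hR, Nat.cast_add, Nat.cast_one]
            linarith
          have hev : ∀ᶠ x in 𝓝 x₀, |g x - g x₀| ≤ K R * ‖x - x₀‖ := by
            filter_upwards [Metric.ball_mem_nhds x₀ one_pos] with x hx
            rw [Metric.mem_ball, dist_eq_norm] at hx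
            have h2 : ‖x‖ ≤ (R : ℝ) := by
              have h3 : ‖x‖ ≤ ‖x - x₀‖ + ‖x₀‖ := by
                have h4 := norm_add_le (x - x₀) x₀
                rwa [sub_add_cancel] at h4
              rw [hR, Nat.cast_add, Nat.cast_one]
              linarith
            exact (hg R x x₀ h2 hx₀).2
          have hlim : Tendsto (fun x => K R * ‖x - x₀‖) (𝓝 x₀) (𝓝 0) := by
            have h5 : Continuous fun x : ℂ => K R * ‖x - x₀‖ := by fun_prop
            have h6 := h5.tendsto x₀
            rwa [sub_self, norm_zero, mul_zero] at h6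
          rw [ContinuousAt, tendsto_iff_dist_tendsto_zero]
          refine squeeze_zero' (Eventually.of_forall fun x => dist_nonneg) ?_ hlim
          filter_upwards [hev] with x hx
          rw [Real.dist_eq]
          exact hx
        exact ⟨⟨g, hcont⟩, hg, rfl⟩
    rw [himg]
    refine IsCompact.of_isClosed_subset (isCompact_univ_pi fun x : ℂ =>
      isCompact_Icc (a := -(K ⌈‖x‖⌉₊)) (b := K ⌈‖x‖⌉₊)) ?_ ?_
    · simp only [Set.ofPred_forall]
      refine isClosed_iInter fun R => isClosed_iInter fun x => isClosed_iInter fun y =>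
        isClosed_iInter fun _ => isClosed_iInter fun _ => ?_
      rw [Set.ofPred_and]
      refine IsClosed.inter ?_ ?_
      · exact isClosed_le ((continuous_apply x).abs) continuous_const
      · exact isClosed_le (((continuous_apply x).sub (continuous_apply y)).abs) continuous_const
    · intro g hg x _
      have h := (hg ⌈‖x‖⌉₊ x x (Nat.le_ceil _) (Nat.le_ceil _)).1
      exact abs_le.1 h
  · intro x₀
    set R : ℕ := ⌈‖x₀‖⌉₊ + 1 with hR
    have h1 : ‖x₀‖ ≤ (⌈‖x₀‖⌉₊ : ℝ) := Nat.le_ceil _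
    have hx₀ : ‖x₀‖ ≤ (R : ℝ) := by
      rw [hR, Nat.cast_add, Nat.cast_one]
      linarith
    refine Metric.equicontinuousAt_of_continuity_modulus (fun x => K R * ‖x₀ - x‖) ?_ _ ?_
    · have h5 : Continuous fun x : ℂ => K R * ‖x₀ - x‖ := by fun_prop
      have h6 := h5.tendsto x₀
      rwa [sub_self, norm_zero, mul_zero] at h6
    · filter_upwards [Metric.ball_mem_nhds x₀ one_pos] with x hx f
      rw [Metric.mem_ball, dist_eq_norm] at hx
      have h2 : ‖x‖ ≤ (R : ℝ) := by
        have h3 : ‖x‖ ≤ ‖x - x₀‖ + ‖x₀‖ := by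
          have h4 := norm_add_le (x - x₀) x₀
          rwa [sub_add_cancel] at h4
        rw [hR, Nat.cast_add, Nat.cast_one]
        linarith
      rw [Real.dist_eq]
      exact (f.2 R x₀ x hx₀ h2).2

theorem near : S_Near := by
  intro K hK G hG ε hε
  have h1 : {x : C(ℂ, ℝ) × C(ℂ, ℝ) | x.1 ∈ K → (G x.1, G x.2) ∈ {p : ℝ × ℝ | dist p.1 p.2 < ε}} ∈
      𝓤 C(ℂ, ℝ) :=
    hK.uniformContinuousAt_of_continuousAt G (fun a _ => hG.continuousAt)
      (Metric.dist_mem_uniformity hε)
  rw [ContinuousMap.mem_compactConvergence_entourage_iff] at h1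
  obtain ⟨C, V, hC, hV, hsub⟩ := h1
  obtain ⟨R, hR⟩ := hC.isBounded.exists_norm_le
  refine ⟨R, fun g hg f hfg => ?_⟩
  have h2 : (g, f) ∈ {fg : C(ℂ, ℝ) × C(ℂ, ℝ) | ∀ x ∈ C, (fg.1 x, fg.2 x) ∈ V} := by
    intro x hx
    show (g x, f x) ∈ V
    rw [hfg x (hR x hx)]
    exact refl_mem_uniformity hV
  have h3 := hsub h2 hg
  have h4 : dist (G g) (G f) < ε := h3
  rw [dist_comm, Real.dist_eq] at h4
  exact h4.le

end Pool.Agent.H860.BE
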